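import Pool.Agent.TH171.EN.Step

/-!
# The induction
-/

set_option autoImplicit false

namespace Pool.Agent.TH171.EN

open Matrix

/-- Central factors can be taken out of the variables `y`. -/
theorem cap_central_right {A : Type} [Ring A] {k : ℕ} (κ : Fin (k + 1) → A)
    (hκ : ∀ i, ∀ x : A, κ i * x = x * κ i) (z : Fin k → A) (y : Fin (k + 1) → A) :
    cap z (fun i => κ i * y i) = (List.ofFn κ).prod * cap z y := by
  rw [cap, cap, Finset.mul_sum]
  refine Finset.sum_congr rfl fun σ _ => ?_
  rw [mul_smul_comm]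
  congr 1
  have hP : ∀ l : List (Fin k), ∀ x : A,
      (l.map fun i => κ i.succ).prod * x = x * (l.map fun i => κ i.succ).prod := by
    intro l x
    induction l with
    | nil => simp
    | cons i l ih => rw [List.map_cons, List.prod_cons, mul_assoc, ih, ← mul_assoc, hκ, mul_assoc]
  have hsplit : ∀ l : List (Fin k), ∀ f : Fin k → A,
      (l.map fun i => κ i.succ * f i).prod = (l.map fun i => κ i.succ).prod * (l.map f).prod := by
    intro l f
    induction l with
    | nil => simp
    | cons i l ih =>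
      rw [List.map_cons, List.prod_cons, ih, List.map_cons, List.prod_cons,
        List.map_cons, List.prod_cons, mul_assoc, ← mul_assoc (f i), ← hP, mul_assoc, mul_assoc]
  have e1 : (List.ofFn fun i => z (σ i) * (κ i.succ * y i.succ)) =
      (List.finRange k).map fun i => κ i.succ * (z (σ i) * y i.succ) := by
    rw [List.ofFn_eq_map]
    apply List.map_congr_left
    intro i _
    rw [← mul_assoc, ← hκ, mul_assoc]
  rw [e1, hsplit, List.ofFn_succ, List.prod_cons, List.ofFn_eq_map (f := fun i : Fin k => κ i.succ),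
    List.ofFn_eq_map, mul_assoc, mul_assoc]
  congr 1
  rw [← mul_assoc, ← hP, mul_assoc]

/-- A surjective image on which the Capelli expression vanishes has no irreducible
representations of the corresponding degree. -/
theorem irr_lt {Q : Type} [Ring Q] (V : Irr Q) (r : ℕ) (hV : V.s ≤ r + 1)
    (h : ∀ (z : Fin ((r + 1) ^ 2) → Q) (y : Fin ((r + 1) ^ 2 + 1) → Q), cap z y = 0) : V.s ≤ r := by
  by_contra hcon
  have hs : V.s = r + 1 := by omega
  letI := V.fL
  obtain ⟨L, fL, cL, s, ρ, hspan⟩ := V
  simp only at hs hcon hV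
  subst hs
  obtain ⟨z, y, hzy⟩ := cap_ne_zero (L := L) (r + 1) (Nat.succ_pos r)
  apply hzy
  have hcl : ∀ x : Matrix (Fin (r + 1)) (Fin (r + 1)) L,
      x ∈ AddSubgroup.closure {x | ∃ (l : L) (a : Q), x = algebraMap L _ l * ρ a} := by
    intro x
    have hx : x ∈ Submodule.span L (Set.range ρ) := by rw [hspan]; trivial
    induction hx using Submodule.span_induction with
    | mem x h =>
      obtain ⟨a, rfl⟩ := h
      exact AddSubgroup.subset_closure ⟨1, a, by rw [map_one, one_mul]⟩
    | zero => exact zero_mem _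
    | add x y _ _ hx hy => exact add_mem hx hy
    | smul l x _ hx =>
      clear * - hx
      induction hx using AddSubgroup.closure_induction with
      | mem x h =>
        obtain ⟨l', a, rfl⟩ := h
        refine AddSubgroup.subset_closure ⟨l * l', a, ?_⟩
        rw [map_mul, Algebra.smul_def, mul_assoc]
      | zero => rw [smul_zero]; exact zero_mem _
      | add x y _ _ hx hy => rw [smul_add]; exact add_mem hx hy
      | neg x _ hx => rw [smul_neg]; exact neg_mem hx
  have h1 := cap_mem_closure (⊥ : AddSubgroup (Matrix (Fin (r + 1)) (Fin (r + 1)) L))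
    (fun _ : Fin ((r + 1) ^ 2) => {x | ∃ (l : L) (a : Q), x = algebraMap L _ l * ρ a})
    (fun _ : Fin ((r + 1) ^ 2 + 1) => {x | ∃ (l : L) (a : Q), x = algebraMap L _ l * ρ a})
    (by
      intro z y hz hy
      choose l a hz using hz
      choose l' a' hy using hy
      have e1 : z = fun i => algebraMap L _ (l i) * ρ (a i) := funext hz
      have e2 : y = fun i => algebraMap L _ (l' i) * ρ (a' i) := funext hy
      rw [AddSubgroup.mem_bot, e1, cap_central _ (fun i x => Algebra.commutes _ _), e2,
        cap_central_right _ (fun i x => Algebra.commutes _ _), ← map_cap, h, map_zero, mul_zero,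
        mul_zero])
    z y (fun i => hcl _) (fun i => hcl _)
  exact AddSubgroup.mem_bot.1 h1

/-- The inductive step in abstract form. -/
theorem step_abstract {n : ℕ} (hn : 3 ≤ n) {T : Type} [Ring T] (S : Subring T)
    (I : AddSubgroup T) (hI : TwoSided I) (hIS : ∀ x ∈ I, x ∈ S)
    (hD : (E n (dbl (sq I) (sq_twoSided hI))).Normal)
    (hN : ∀ (Q : Type) [Ring Q] (π : S →+* Q), Function.Surjective π →
      (∀ x : S, (x : T) ∈ I → π x = 0) → (E n Q).Normal) : (E n S).Normal := by
  -- the quotient rings
  let J2 : Ideal S :=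
    { carrier := {x | (x : T) ∈ sq I}
      add_mem' := fun ha hb => (sq I).add_mem ha hb
      zero_mem' := (sq I).zero_mem
      smul_mem' := fun a x hx => (sq_twoSided hI (a : T) _ hx).1 }
  have i2 : J2.IsTwoSided := ⟨fun {a} b ha => (sq_twoSided hI (b : T) _ ha).2⟩
  let J1 : Ideal S :=
    { carrier := {x | (x : T) ∈ I}
      add_mem' := fun ha hb => I.add_mem ha hb
      zero_mem' := I.zero_mem
      smul_mem' := fun a x hx => (hI (a : T) _ hx).1 }
  have i1 : J1.IsTwoSided := ⟨fun {a} b ha => (hI (b : T) _ ha).2⟩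
  have hJ : J2 ≤ J1 := fun x hx => sq_le hI hx
  -- normality for the quotient by the ideal
  have hN1 : (E n (S ⧸ J1)).Normal :=
    hN _ (Ideal.Quotient.mk J1) Ideal.Quotient.mk_surjective
      (fun x hx => Ideal.Quotient.eq_zero_iff_mem.2 hx)
  -- normality for the quotient by its square
  have hN2 : (E n (S ⧸ J2)).Normal := by
    refine normal_of_radical hn (Ideal.Quotient.factor hJ) (Ideal.Quotient.factor_surjective hJ)
      ?_ hN1
    intro x hx
    obtain ⟨a, rfl⟩ := Ideal.Quotient.mk_surjective x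
    rw [Ideal.Quotient.factor_mk, Ideal.Quotient.eq_zero_iff_mem] at hx
    have h1 : IsNilpotent (Ideal.Quotient.mk J2 a) := by
      refine ⟨2, ?_⟩
      rw [← map_pow, Ideal.Quotient.eq_zero_iff_mem, pow_two]
      exact AddSubgroup.subset_closure ⟨_, hx, _, hx, rfl⟩
    exact h1.isUnit_one_add
  exact excision hn S I hI hIS (fun e he g hg => conj_EI_sq hn _ hI e he g hg) hD
    (Ideal.Quotient.mk J2) Ideal.Quotient.mk_surjective
    (fun x hx => Ideal.Quotient.eq_zero_iff_mem.1 hx) hN2

/-- The inductive step for subrings of products of matrix rings. -/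
theorem sep_step {n : ℕ} (hn : 3 ≤ n) {d : ℕ} (c : Equiv.Perm (Fin d) → ℤ) (hc : c 1 = 1) (r : ℕ)
    (IH : ∀ (Q : Type) [Ring Q], Ident Q c → (∀ V : Irr Q, V.s ≤ r) → (E n Q).Normal)
    {Ω : Type} (L : Ω → Type) [∀ ω, Field (L ω)] (hinf : ∀ ω, Infinite (L ω)) (s : Ω → ℕ)
    (S : Subring (Amb L s)) (hs : ∀ ω, s ω ≤ r + 1) (hid : Ident S c)
    (hirr : ∀ V : Irr S, V.s ≤ r + 1) : (E n S).Normal := by
  have hk0 : 0 < (r + 1) ^ 2 := by positivity
  have hsk : ∀ ω, s ω ^ 2 ≤ (r + 1) ^ 2 := fun ω => Nat.pow_le_pow_left (hs ω) 2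
  have hI := II_twoSided S ((r + 1) ^ 2) hk0
  have hStep := step_abstract hn (S.comap (TT S ((r + 1) ^ 2)).subtype) (II S ((r + 1) ^ 2)) hI
    (fun x hx => capI_le S _ _ hx)
    (by
      letI := algD S ((r + 1) ^ 2) (sq (II S ((r + 1) ^ 2))) (sq_twoSided hI)
      exact normal_of_integral (Z := T0 S ((r + 1) ^ 2)) c hc (ident_D S _ hid _ _)
        (fun x => integral_D S _ hinf hsk _ _ x) hn)
  let g : S →+* S.comap (TT S ((r + 1) ^ 2)).subtype :=
    { toFun := fun x => ⟨⟨x.1, S_le_TT S _ x.2⟩, x.2⟩
      map_one' := rfl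
      map_mul' := fun _ _ => rfl
      map_zero' := rfl
      map_add' := fun _ _ => rfl }
  have hg : Function.Bijective g :=
    ⟨fun x y h => Subtype.ext (congrArg (fun z => z.1.1) h), fun x => ⟨⟨x.1.1, x.2⟩, rfl⟩⟩
  apply normal_of_equiv (RingEquiv.ofBijective g hg).symm
  apply hStep
  intro Q _ π hπ hπ0
  have hπg : Function.Surjective (π.comp g) := hπ.comp hg.2
  apply IH
  · exact Ident.of_surj (π.comp g) hπg hid
  · intro V
    apply irr_lt V r
    · exact hirr (V.pull (π.comp g) hπg)
    · intro z y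
      choose z' hz' using fun i => hπg (z i)
      choose y' hy' using fun i => hπg (y i)
      have h1 : z = fun i => (π.comp g) (z' i) := funext fun i => (hz' i).symm
      have h2 : y = fun i => (π.comp g) (y' i) := funext fun i => (hy' i).symm
      rw [h1, h2, ← map_cap]
      apply hπ0
      rw [mem_II]
      have h3 : (((g (cap z' y') : S.comap (TT S ((r + 1) ^ 2)).subtype) :
          TT S ((r + 1) ^ 2)) : Amb L s) =
          cap (fun i => (z' i : Amb L s)) (fun i => (y' i : Amb L s)) :=
        map_cap S.subtype z' y'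
      rw [h3]
      exact AddSubgroup.subset_closure ⟨_, _, fun i => (z' i).2, fun i => (y' i).2, rfl⟩

/-- The induction over the degrees of the irreducible representations. -/
theorem main_induction {n : ℕ} (hn : 3 ≤ n) {d : ℕ} (c : Equiv.Perm (Fin d) → ℤ) (hc : c 1 = 1)
    (r : ℕ) : ∀ (R : Type) [Ring R], Ident R c → (∀ V : Irr R, V.s ≤ r) → (E n R).Normal := by
  induction r with
  | zero =>
    intro R _ hid hirr
    have h1 : IsNilpotent (1 : R) := by
      by_contra h
      obtain ⟨L, fL, cL, s, ρ, hspan, h2⟩ := exists_irrep c hc hid 1 h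
      have h3 : s ≤ 0 := hirr ⟨L, fL, cL, s, ρ, hspan⟩
      obtain rfl : s = 0 := by omega
      exact h2 (Subsingleton.elim _ _)
    obtain ⟨m, hm⟩ := h1
    rw [one_pow] at hm
    have h2 : Subsingleton R := subsingleton_of_zero_eq_one hm.symm
    apply normal_of
    intro g i j hij a
    have h3 : g * tv i j hij a * g⁻¹ = 1 := Units.ext (Subsingleton.elim _ _)
    rw [h3]
    exact one_mem _
  | succ r IH =>
    intro R _ hid hirr
    let Ω : Type := {a : R // ∃ V : Irr R, letI := V.fL; V.ρ a ≠ 0}
    choose V hV using fun ω : Ω => ω.2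
    letI : ∀ ω : Ω, Field (V ω).L := fun ω => (V ω).fL
    let ι : R →+* Amb (fun ω => (V ω).L) (fun ω => (V ω).s) := RingHom.pi fun ω => (V ω).ρ
    refine normal_of_radical hn ι.rangeRestrict ι.rangeRestrict_surjective ?_ ?_
    · intro x hx
      apply IsNilpotent.isUnit_one_add
      by_contra h
      obtain ⟨L, fL, cL, s, ρ, hspan, h2⟩ := exists_irrep c hc hid x h
      let ω : Ω := ⟨x, ⟨L, fL, cL, s, ρ, hspan⟩, h2⟩
      apply hV ω
      have h3 : ι x = 0 := congrArg Subtype.val hx
      exact congrFun h3 ω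
    · refine sep_step hn c hc r IH (fun ω => (V ω).L) (fun ω => ?_) (fun ω => (V ω).s) ι.range
        (fun ω => hirr (V ω)) ?_ ?_
      · haveI := (V ω).cL
        exact IsAlgClosed.instInfinite
      · exact Ident.of_surj ι.rangeRestrict ι.rangeRestrict_surjective hid
      · intro W
        exact hirr (W.pull ι.rangeRestrict ι.rangeRestrict_surjective)

/-- **Main theorem.** The elementary subgroup is normal over every PI ring. -/
theorem normal_of_PI {n : ℕ} (hn : 3 ≤ n) {d : ℕ} (c : Equiv.Perm (Fin d) → ℤ) (hc : c 1 = 1)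
    (R : Type) [Ring R] (hid : Ident R c) : (E n R).Normal :=
  main_induction hn c hc d R hid fun V =>
    letI := V.fL
    irrep_degree_le c hc hid V.ρ V.span

end Pool.Agent.TH171.EN
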