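import Mathlib

/-!
# The elementary subgroup of the general linear group over an associative ring

Definitions, the Steinberg relations, functoriality, perfectness.
-/

set_option autoImplicit false

namespace Pool.Agent.TH171.EN

open Matrix
open scoped commutatorElement

/-- The general linear group of degree `n` over the ring `R`. -/
abbrev GLn (n : ℕ) (R : Type) [Ring R] : Type := (Matrix (Fin n) (Fin n) R)ˣ

section basic

variable {n : ℕ} {R : Type} [Ring R]

/-- The transvection `1 + r e_ij` as a unit. -/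
def tv (i j : Fin n) (h : i ≠ j) (r : R) : GLn n R where
  val := 1 + Matrix.single i j r
  inv := 1 - Matrix.single i j r
  val_inv := by
    have h1 : Matrix.single i j r * Matrix.single i j r = 0 :=
      Matrix.single_mul_single_of_ne _ _ _ _ h.symm _
    rw [mul_sub, add_mul, add_mul, h1, mul_one, mul_one, one_mul]
    abel
  inv_val := by
    have h1 : Matrix.single i j r * Matrix.single i j r = 0 :=
      Matrix.single_mul_single_of_ne _ _ _ _ h.symm _
    rw [mul_add, sub_mul, sub_mul, h1, mul_one, mul_one, one_mul]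
    abel

theorem tv_val (i j : Fin n) (h : i ≠ j) (r : R) :
    ((tv i j h r : GLn n R) : Matrix (Fin n) (Fin n) R) = 1 + Matrix.single i j r := rfl

theorem tv_inv_val (i j : Fin n) (h : i ≠ j) (r : R) :
    (((tv i j h r)⁻¹ : GLn n R) : Matrix (Fin n) (Fin n) R) = 1 - Matrix.single i j r := rfl

theorem tv_mul (i j : Fin n) (h : i ≠ j) (r s : R) :
    tv i j h r * tv i j h s = tv i j h (r + s) := by
  apply Units.ext
  have h1 : Matrix.single i j r * Matrix.single i j s = 0 :=
    Matrix.single_mul_single_of_ne _ _ _ _ h.symm _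
  rw [Units.val_mul, tv_val, tv_val, tv_val, mul_add, add_mul, add_mul, h1, mul_one, mul_one,
    one_mul, Matrix.single_add]
  abel

theorem tv_zero (i j : Fin n) (h : i ≠ j) : tv i j h (0 : R) = 1 := by
  apply Units.ext
  rw [tv_val, Matrix.single_zero, add_zero, Units.val_one]

theorem tv_inv (i j : Fin n) (h : i ≠ j) (r : R) : (tv i j h r)⁻¹ = tv i j h (-r) := by
  rw [inv_eq_iff_mul_eq_one, tv_mul, add_neg_cancel, tv_zero]

/-- `t_ij(a) t_jk(b) t_ij(-a) t_jk(-b) = t_ik(ab)`. -/
theorem tv_comm (i j k : Fin n) (hij : i ≠ j) (hjk : j ≠ k) (hik : i ≠ k) (a b : R) :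
    tv i j hij a * tv j k hjk b = tv i k hik (a * b) * (tv j k hjk b * tv i j hij a) := by
  apply Units.ext
  have h1 : Matrix.single i j a * Matrix.single j k b = Matrix.single i k (a * b) := by simp
  have h2 : Matrix.single j k b * Matrix.single i j a = 0 :=
    Matrix.single_mul_single_of_ne _ _ _ _ hik.symm _
  have h3 : Matrix.single i k (a * b) * Matrix.single j k b = 0 :=
    Matrix.single_mul_single_of_ne _ _ _ _ hjk.symm _
  have h4 : Matrix.single i k (a * b) * Matrix.single i j a = 0 :=
    Matrix.single_mul_single_of_ne _ _ _ _ hik.symm _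
  simp only [Units.val_mul, tv_val, mul_add, add_mul, mul_one, one_mul, h1, h2, h3, h4, add_zero]
  abel

theorem tv_commutator (i j k : Fin n) (hij : i ≠ j) (hjk : j ≠ k) (hik : i ≠ k) (a b : R) :
    ⁅tv i j hij a, tv j k hjk b⁆ = tv i k hik (a * b) := by
  rw [commutatorElement_def, tv_comm i j k hij hjk hik]
  group

/-- `t_ij(a)` and `t_kl(b)` commute if `j ≠ k` and `l ≠ i`. -/
theorem tv_commute (i j k l : Fin n) (hij : i ≠ j) (hkl : k ≠ l) (hjk : j ≠ k) (hli : l ≠ i)
    (a b : R) : tv i j hij a * tv k l hkl b = tv k l hkl b * tv i j hij a := by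
  apply Units.ext
  have h1 : Matrix.single i j a * Matrix.single k l b = 0 :=
    Matrix.single_mul_single_of_ne _ _ _ _ hjk _
  have h2 : Matrix.single k l b * Matrix.single i j a = 0 :=
    Matrix.single_mul_single_of_ne _ _ _ _ hli _
  simp only [Units.val_mul, tv_val, mul_add, add_mul, mul_one, one_mul, h1, h2, add_zero]
  abel

/-- The elementary subgroup. -/
def E (n : ℕ) (R : Type) [Ring R] : Subgroup (GLn n R) :=
  Subgroup.closure {g | ∃ (i j : Fin n) (h : i ≠ j) (r : R), g = tv i j h r}

theorem tv_mem (i j : Fin n) (h : i ≠ j) (r : R) : tv i j h r ∈ E n R :=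
  Subgroup.subset_closure ⟨i, j, h, r, rfl⟩

theorem E_le {H : Subgroup (GLn n R)} (h : ∀ (i j : Fin n) (hij : i ≠ j) (r : R),
    tv i j hij r ∈ H) : E n R ≤ H := by
  refine (Subgroup.closure_le _).2 ?_
  rintro _ ⟨i, j, hij, r, rfl⟩
  exact h i j hij r

/-- The subgroup generated by the transvections with entry in a given set. -/
def EI (n : ℕ) (A : Set R) : Subgroup (GLn n R) :=
  Subgroup.closure {g | ∃ (i j : Fin n) (h : i ≠ j), ∃ r ∈ A, g = tv i j h r}

theorem tv_mem_EI {A : Set R} (i j : Fin n) (h : i ≠ j) {r : R} (hr : r ∈ A) :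
    tv i j h r ∈ EI n A :=
  Subgroup.subset_closure ⟨i, j, h, r, hr, rfl⟩

theorem EI_le {A : Set R} {H : Subgroup (GLn n R)} (h : ∀ (i j : Fin n) (hij : i ≠ j),
    ∀ r ∈ A, tv i j hij r ∈ H) : EI n A ≤ H := by
  refine (Subgroup.closure_le _).2 ?_
  rintro _ ⟨i, j, hij, r, hr, rfl⟩
  exact h i j hij r hr

/-- There is a third index. -/
theorem exists_third (hn : 3 ≤ n) (i j : Fin n) : ∃ k : Fin n, k ≠ i ∧ k ≠ j := by
  classical
  have h1 : ({i, j} : Finset (Fin n)).card < (Finset.univ : Finset (Fin n)).card := by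
    refine lt_of_le_of_lt Finset.card_le_two ?_
    rw [Finset.card_univ, Fintype.card_fin]
    omega
  obtain ⟨k, _, hk⟩ := Finset.exists_mem_notMem_of_card_lt_card h1
  simp only [Finset.mem_insert, Finset.mem_singleton, not_or] at hk
  exact ⟨k, hk.1, hk.2⟩

/-- The elementary subgroup is perfect. -/
theorem E_perfect (hn : 3 ≤ n) : ⁅E n R, E n R⁆ = E n R := by
  apply le_antisymm
  · rw [Subgroup.commutator_le]
    intro g hg h hh
    rw [commutatorElement_def]
    exact mul_mem (mul_mem (mul_mem hg hh) (inv_mem hg)) (inv_mem hh)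
  · refine E_le fun i j hij r => ?_
    obtain ⟨k, hki, hkj⟩ := exists_third hn i j
    have h1 := tv_commutator i k j hki.symm hkj hij r 1
    rw [mul_one] at h1
    rw [← h1]
    exact Subgroup.commutator_mem_commutator (tv_mem _ _ _ _) (tv_mem _ _ _ _)

/-- Functoriality of the general linear group. -/
def GLmap (n : ℕ) {R S : Type} [Ring R] [Ring S] (f : R →+* S) : GLn n R →* GLn n S :=
  Units.map (f.mapMatrix : Matrix (Fin n) (Fin n) R →+* Matrix (Fin n) (Fin n) S).toMonoidHom

theorem GLmap_val {S : Type} [Ring S] (f : R →+* S) (g : GLn n R) :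
    ((GLmap n f g : GLn n S) : Matrix (Fin n) (Fin n) S) =
      (g : Matrix (Fin n) (Fin n) R).map f := rfl

theorem GLmap_val_apply {S : Type} [Ring S] (f : R →+* S) (g : GLn n R) (i j : Fin n) :
    ((GLmap n f g : GLn n S) : Matrix (Fin n) (Fin n) S) i j =
      f ((g : Matrix (Fin n) (Fin n) R) i j) := rfl

theorem GLmap_tv {S : Type} [Ring S] (f : R →+* S) (i j : Fin n) (h : i ≠ j) (r : R) :
    GLmap n f (tv i j h r) = tv i j h (f r) := by
  apply Units.ext
  rw [GLmap_val, tv_val, tv_val]
  ext a b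
  simp only [Matrix.map_apply, Matrix.add_apply, map_add]
  congr 1
  · rw [Matrix.one_apply, Matrix.one_apply]
    split <;> simp
  · rw [Matrix.single_apply, Matrix.single_apply]
    split <;> simp

theorem GLmap_mem {S : Type} [Ring S] (f : R →+* S) {g : GLn n R} (hg : g ∈ E n R) :
    GLmap n f g ∈ E n S := by
  have h1 : E n R ≤ (E n S).comap (GLmap n f) := E_le fun i j h r => by
    rw [Subgroup.mem_comap, GLmap_tv]
    exact tv_mem _ _ _ _
  exact h1 hg

theorem GLmap_comp {S T : Type} [Ring S] [Ring T] (f : R →+* S) (g : S →+* T) (x : GLn n R) :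
    GLmap n g (GLmap n f x) = GLmap n (g.comp f) x := by
  apply Units.ext
  rfl

/-- Elementary matrices lift along surjections. -/
theorem exists_lift {S : Type} [Ring S] (f : R →+* S) (hf : Function.Surjective f) {g : GLn n S}
    (hg : g ∈ E n S) : ∃ e ∈ E n R, GLmap n f e = g := by
  have h1 : E n S ≤ (E n R).map (GLmap n f) := E_le fun i j h r => by
    obtain ⟨s, rfl⟩ := hf r
    exact ⟨tv i j h s, tv_mem _ _ _ _, GLmap_tv f i j h s⟩
  obtain ⟨e, he, h2⟩ := h1 hg
  exact ⟨e, he, h2⟩

/-- To prove normality it is enough to conjugate transvections. -/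
theorem normal_of (h : ∀ (g : GLn n R) (i j : Fin n) (hij : i ≠ j) (r : R),
    g * tv i j hij r * g⁻¹ ∈ E n R) : (E n R).Normal := by
  refine ⟨fun x hx g => ?_⟩
  have h1 : E n R ≤ (E n R).comap (MulAut.conj g).toMonoidHom := E_le fun i j hij r => by
    rw [Subgroup.mem_comap]
    exact h g i j hij r
  exact h1 hx

/-- Invariance under isomorphisms of rings. -/
theorem normal_of_equiv {S : Type} [Ring S] (f : R ≃+* S) (h : (E n R).Normal) :
    (E n S).Normal := by
  apply normal_of
  intro g i j hij r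
  have h1 : g * tv i j hij r * g⁻¹ = GLmap n (f : R →+* S) (GLmap n (f.symm : S →+* R) g *
      tv i j hij (f.symm r) * (GLmap n (f.symm : S →+* R) g)⁻¹) := by
    rw [map_mul, map_mul, map_inv, GLmap_tv, GLmap_comp]
    have h2 : GLmap n ((f : R →+* S).comp (f.symm : S →+* R)) g = g := by
      apply Units.ext
      ext a b
      rw [GLmap_val_apply]
      simp
    rw [h2]
    simp
  rw [h1]
  exact GLmap_mem _ (h.conj_mem _ (tv_mem _ _ _ _) _)

/-- The unit with matrix `1 + u v` where `u` is a column and `v` is a row with `v u = 0`. -/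
def cr (u v : Fin n → R) (h : v ⬝ᵥ u = 0) : GLn n R where
  val := 1 + vecMulVec u v
  inv := 1 - vecMulVec u v
  val_inv := by
    have h1 : vecMulVec u v * vecMulVec u v = 0 := by
      rw [vecMulVec_mul_vecMulVec, h]
      ext i j
      simp [vecMulVec_apply]
    rw [mul_sub, add_mul, add_mul, h1, mul_one, mul_one, one_mul]
    abel
  inv_val := by
    have h1 : vecMulVec u v * vecMulVec u v = 0 := by
      rw [vecMulVec_mul_vecMulVec, h]
      ext i j
      simp [vecMulVec_apply]
    rw [mul_add, sub_mul, sub_mul, h1, mul_one, mul_one, one_mul]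
    abel

theorem cr_val (u v : Fin n → R) (h : v ⬝ᵥ u = 0) :
    ((cr u v h : GLn n R) : Matrix (Fin n) (Fin n) R) = 1 + vecMulVec u v := rfl

end basic

end Pool.Agent.TH171.EN
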