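import Pool.Agent.TH171.EN.Defs

/-!
# Rank one units in the elementary subgroup, and a criterion for normality
-/

set_option autoImplicit false

namespace Pool.Agent.TH171.EN

open Matrix
open scoped commutatorElement

variable {n : ℕ} {R : Type} [Ring R]

theorem cr_mul (u v v' : Fin n → R) (h : v ⬝ᵥ u = 0) (h' : v' ⬝ᵥ u = 0) :
    cr u v h * cr u v' h' = cr u (v + v') (by rw [add_dotProduct, h, h', add_zero]) := by
  apply Units.ext
  have h1 : vecMulVec u v * vecMulVec u v' = 0 := by
    rw [vecMulVec_mul_vecMulVec, h]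
    ext i j
    simp [vecMulVec_apply]
  rw [Units.val_mul, cr_val, cr_val, cr_val, mul_add, add_mul, add_mul, h1, mul_one, mul_one,
    one_mul, vecMulVec_add]
  abel

theorem cr_mul_col (u u' v : Fin n → R) (h : v ⬝ᵥ u = 0) (h' : v ⬝ᵥ u' = 0) :
    cr u v h * cr u' v h' = cr (u + u') v (by rw [dotProduct_add, h, h', add_zero]) := by
  apply Units.ext
  have h1 : vecMulVec u v * vecMulVec u' v = 0 := by
    rw [vecMulVec_mul_vecMulVec, h']
    ext i j
    simp [vecMulVec_apply]
  rw [Units.val_mul, cr_val, cr_val, cr_val, mul_add, add_mul, add_mul, h1, mul_one, mul_one,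
    one_mul, add_vecMulVec]
  abel

theorem cr_zero (u : Fin n → R) (h : (0 : Fin n → R) ⬝ᵥ u = 0) : cr u 0 h = 1 := by
  apply Units.ext
  rw [cr_val, vecMulVec_zero, add_zero, Units.val_one]

theorem cr_zero_col (v : Fin n → R) (h : v ⬝ᵥ (0 : Fin n → R) = 0) : cr 0 v h = 1 := by
  apply Units.ext
  rw [cr_val, zero_vecMulVec, add_zero, Units.val_one]

theorem cr_congr {u u' v v' : Fin n → R} (h : v ⬝ᵥ u = 0) (h' : v' ⬝ᵥ u' = 0) (hu : u = u')
    (hv : v = v') : cr u v h = cr u' v' h' := by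
  subst hu hv
  rfl

theorem conj_cr (g : GLn n R) (u v : Fin n → R) (h : v ⬝ᵥ u = 0)
    (h' : (v ᵥ* ((g⁻¹ : GLn n R) : Matrix (Fin n) (Fin n) R)) ⬝ᵥ
      ((g : Matrix (Fin n) (Fin n) R) *ᵥ u) = 0) :
    g * cr u v h * g⁻¹ = cr ((g : Matrix (Fin n) (Fin n) R) *ᵥ u)
      (v ᵥ* ((g⁻¹ : GLn n R) : Matrix (Fin n) (Fin n) R)) h' := by
  apply Units.ext
  rw [Units.val_mul, Units.val_mul, cr_val, cr_val, mul_add, add_mul, mul_one, mul_vecMulVec,
    vecMulVec_mul, Units.mul_inv]

theorem conj_dot (g : GLn n R) (u v : Fin n → R) (h : v ⬝ᵥ u = 0) :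
    (v ᵥ* ((g⁻¹ : GLn n R) : Matrix (Fin n) (Fin n) R)) ⬝ᵥ
      ((g : Matrix (Fin n) (Fin n) R) *ᵥ u) = 0 := by
  rw [← dotProduct_mulVec, mulVec_mulVec, Units.inv_mul, one_mulVec, h]

theorem single_mat (i j : Fin n) (r s : R) :
    vecMulVec (Pi.single i r) (Pi.single j s) = Matrix.single i j (r * s) := by
  ext a b
  rw [vecMulVec_apply, Matrix.single_apply, Pi.single_apply, Pi.single_apply]
  by_cases ha : i = a
  · subst ha
    by_cases hb : j = b
    · subst hb
      simp
    · simp [hb, Ne.symm hb]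
  · simp [ha, Ne.symm ha]

theorem tv_eq_cr (i j : Fin n) (hij : i ≠ j) (r : R) (h) :
    tv i j hij r = cr (Pi.single i 1) (Pi.single j r) h := by
  apply Units.ext
  rw [tv_val, cr_val, single_mat]
  simp

theorem tv_eq_cr' (i j : Fin n) (hij : i ≠ j) (r : R) (h) :
    tv i j hij r = cr (Pi.single i r) (Pi.single j 1) h := by
  apply Units.ext
  rw [tv_val, cr_val, single_mat]
  simp

/-- additivity in the row along a finite sum. -/
theorem cr_sum_mem {H : Subgroup (GLn n R)} (u : Fin n → R) {ι : Type} (s : Finset ι)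
    (f : ι → Fin n → R) (hf : ∀ i ∈ s, f i ⬝ᵥ u = 0)
    (hm : ∀ i ∈ s, ∀ h : f i ⬝ᵥ u = 0, cr u (f i) h ∈ H)
    (h : (∑ i ∈ s, f i) ⬝ᵥ u = 0) : cr u (∑ i ∈ s, f i) h ∈ H := by
  classical
  induction s using Finset.induction_on with
  | empty =>
    rw [cr_congr (v' := 0) h (by simp) rfl (by simp), cr_zero]
    exact one_mem _
  | insert a s ha ih =>
    have h1 : f a ⬝ᵥ u = 0 := hf a (Finset.mem_insert_self _ _)
    have h2 : (∑ i ∈ s, f i) ⬝ᵥ u = 0 := by
      rw [sum_dotProduct]
      exact Finset.sum_eq_zero fun i hi => hf i (Finset.mem_insert_of_mem hi)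
    rw [cr_congr (v' := f a + ∑ i ∈ s, f i) h (by rw [add_dotProduct, h1, h2, add_zero]) rfl
      (Finset.sum_insert ha), ← cr_mul u _ _ h1 h2]
    exact mul_mem (hm a (Finset.mem_insert_self _ _) h1)
      (ih (fun i hi => hf i (Finset.mem_insert_of_mem hi))
        (fun i hi => hm i (Finset.mem_insert_of_mem hi)) h2)

theorem cr_sum_col_mem {H : Subgroup (GLn n R)} (v : Fin n → R) {ι : Type} (s : Finset ι)
    (f : ι → Fin n → R) (hf : ∀ i ∈ s, v ⬝ᵥ f i = 0)
    (hm : ∀ i ∈ s, ∀ h : v ⬝ᵥ f i = 0, cr (f i) v h ∈ H)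
    (h : v ⬝ᵥ (∑ i ∈ s, f i) = 0) : cr (∑ i ∈ s, f i) v h ∈ H := by
  classical
  induction s using Finset.induction_on with
  | empty =>
    rw [cr_congr (u' := 0) h (by simp) (by simp) rfl, cr_zero_col]
    exact one_mem _
  | insert a s ha ih =>
    have h1 : v ⬝ᵥ f a = 0 := hf a (Finset.mem_insert_self _ _)
    have h2 : v ⬝ᵥ (∑ i ∈ s, f i) = 0 := by
      rw [dotProduct_sum]
      exact Finset.sum_eq_zero fun i hi => hf i (Finset.mem_insert_of_mem hi)
    rw [cr_congr (u' := f a + ∑ i ∈ s, f i) h (by rw [dotProduct_add, h1, h2, add_zero])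
      (Finset.sum_insert ha) rfl, ← cr_mul_col _ _ v h1 h2]
    exact mul_mem (hm a (Finset.mem_insert_self _ _) h1)
      (ih (fun i hi => hf i (Finset.mem_insert_of_mem hi))
        (fun i hi => hm i (Finset.mem_insert_of_mem hi)) h2)

/-- a row supported off `k` times the basis column `e_k`. -/
theorem cr_single_mem (k : Fin n) (a : R) (v : Fin n → R) (hv : v k = 0) (h) :
    cr (Pi.single k a) v h ∈ E n R := by
  have h0 : v = ∑ j : Fin n, Pi.single j (v j) := (Finset.univ_sum_single v).symm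
  rw [cr_congr (v' := ∑ j : Fin n, Pi.single j (v j)) h (by rw [← h0]; exact h) rfl h0]
  apply cr_sum_mem
  · intro j _
    rw [single_dotProduct]
    by_cases hj : j = k
    · rw [hj, hv, zero_mul]
    · rw [Pi.single_eq_of_ne hj, mul_zero]
  · intro j _ h
    by_cases hj : j = k
    · rw [cr_congr (v' := 0) h (by simp) rfl (by rw [hj, hv, Pi.single_zero]), cr_zero]
      exact one_mem _
    · have h1 : cr (Pi.single k a) (Pi.single j (v j)) h = tv k j (Ne.symm hj) (a * v j) := by
        apply Units.ext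
        rw [tv_val, cr_val, single_mat]
      rw [h1]
      exact tv_mem _ _ _ _

/-- a column supported off `k` times the basis row `e_k`. -/
theorem cr_single_row_mem (k : Fin n) (a : R) (u : Fin n → R) (hu : u k = 0) (h) :
    cr u (Pi.single k a) h ∈ E n R := by
  have h0 : u = ∑ j : Fin n, Pi.single j (u j) := (Finset.univ_sum_single u).symm
  rw [cr_congr (u' := ∑ j : Fin n, Pi.single j (u j)) h (by rw [← h0]; exact h) h0 rfl]
  apply cr_sum_col_mem
  · intro j _
    rw [single_dotProduct]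
    by_cases hj : j = k
    · rw [hj, hu, Pi.single_zero, Pi.zero_apply, mul_zero]
    · rw [Pi.single_eq_of_ne (Ne.symm hj), mul_zero]
  · intro j _ h
    by_cases hj : j = k
    · rw [cr_congr (u' := 0) h (by simp) (by rw [hj, hu, Pi.single_zero]) rfl, cr_zero_col]
      exact one_mem _
    · have h1 : cr (Pi.single j (u j)) (Pi.single k a) h = tv j k hj (u j * a) := by
        apply Units.ext
        rw [tv_val, cr_val, single_mat]
      rw [h1]
      exact tv_mem _ _ _ _

/-- **Whitehead's lemma.** If `v u = 0` and `v` has a vanishing coordinate, then `1 + u v` is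
elementary. -/
theorem cr_mem (u v : Fin n → R) (h : v ⬝ᵥ u = 0) (k : Fin n) (hk : v k = 0) :
    cr u v h ∈ E n R := by
  classical
  -- the part of `u` off `k`
  set u' : Fin n → R := Function.update u k 0 with hu'
  have hsplit : u = Pi.single k (u k) + u' := by
    ext i
    rw [Pi.add_apply, hu']
    by_cases hi : i = k
    · subst hi; simp
    · rw [Pi.single_eq_of_ne hi, Function.update_of_ne hi, zero_add]
  have hu'k : u' k = 0 := by rw [hu']; simp
  have h1 : v ⬝ᵥ Pi.single k (u k) = 0 := by rw [dotProduct_single, hk, zero_mul]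
  have h2 : v ⬝ᵥ u' = 0 := by
    have := h
    rw [hsplit, dotProduct_add, h1, zero_add] at this
    exact this
  rw [cr_congr (u' := Pi.single k (u k) + u') h (by rw [dotProduct_add, h1, h2, add_zero]) hsplit
    rfl, ← cr_mul_col _ _ v h1 h2]
  refine mul_mem (cr_single_mem k (u k) v hk h1) ?_
  -- now `u' k = v k = 0`
  have h3 : (Pi.single k (1 : R)) ⬝ᵥ u' = 0 := by rw [single_dotProduct, hu'k, mul_zero]
  have h4 : v ⬝ᵥ Pi.single k (1 : R) = 0 := by rw [dotProduct_single, hk, zero_mul]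
  have h5 : cr u' v h2 = ⁅cr u' (Pi.single k 1) h3, cr (Pi.single k 1) v h4⁆ := by
    have hA : ∀ a b : Matrix (Fin n) (Fin n) R, a * a = 0 → b * b = 0 → b * a = 0 →
        (1 + a) * (1 + b) * (1 - a) * (1 - b) = 1 + a * b := by
      intro a b haa hbb hba
      have e1 : (1 + a) * (1 + b) = 1 + a + b + a * b := by
        rw [add_mul, mul_add, one_mul, mul_add, mul_one, one_mul]; abel
      have e2 : (1 + a + b + a * b) * (1 - a) = 1 + b + a * b := by
        have : a * b * a = 0 := by rw [mul_assoc, hba, mul_zero]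
        rw [mul_sub, add_mul _ _ a, add_mul _ _ a, add_mul _ _ a, haa, hba, this, mul_one, one_mul]
        abel
      have e3 : (1 + b + a * b) * (1 - b) = 1 + a * b := by
        have : a * b * b = 0 := by rw [mul_assoc, hbb, mul_zero]
        rw [mul_sub, add_mul _ _ b, add_mul _ _ b, hbb, this, mul_one, one_mul]
        abel
      rw [e1, e2, e3]
    apply Units.ext
    rw [commutatorElement_def, Units.val_mul, Units.val_mul, Units.val_mul, cr_val, cr_val, cr_val]
    change _ = (1 + vecMulVec u' (Pi.single k 1)) * (1 + vecMulVec (Pi.single k 1) v) *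
      (1 - vecMulVec u' (Pi.single k 1)) * (1 - vecMulVec (Pi.single k 1) v)
    have z : ∀ (a b c d : Fin n → R), b ⬝ᵥ c = 0 → vecMulVec a b * vecMulVec c d = 0 := by
      intro a b c d hbc
      rw [vecMulVec_mul_vecMulVec, hbc]
      ext i j
      simp [vecMulVec_apply]
    rw [hA _ _ (z _ _ _ _ h3) (z _ _ _ _ h4) (z _ _ _ _ h2)]
    congr 1
    rw [vecMulVec_mul_vecMulVec]
    simp
  rw [h5, commutatorElement_def]
  have h6 := cr_single_row_mem k 1 u' hu'k h3
  have h7 := cr_single_mem k 1 v hk h4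
  exact mul_mem (mul_mem (mul_mem h6 h7) (inv_mem h6)) (inv_mem h7)

end Pool.Agent.TH171.EN
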