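import Pool.Agent.TH171.EN.Crit

/-!
# A criterion for normality over a central subring
-/

set_option autoImplicit false

namespace Pool.Agent.TH171.EN

open Matrix
open scoped commutatorElement

/-- The key computation: if the coordinate `U p` has a two-sided central multiple `s`, then
`1 + U s V` is elementary. -/
theorem cr_smul_mem {D : Type} [Ring D] {n : ℕ} (hn : 3 ≤ n) (U V : Fin n → D) (hVU : V ⬝ᵥ U = 0)
    (p : Fin n) (y s : D) (hs : ∀ x, s * x = x * s) (h1 : U p * y = s) (h2 : y * U p = s)
    (h : (fun q => V q * s) ⬝ᵥ U = 0) : cr U (fun q => V q * s) h ∈ E n D := by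
  classical
  have hU : ∑ q ∈ Finset.univ.erase p, V q * U q = - (V p * U p) := by
    rw [eq_neg_iff_add_eq_zero, Finset.sum_erase_add _ _ (Finset.mem_univ p)]
    exact hVU
  have hF : ∀ q, (Pi.single q (V q * s) - Pi.single p (V q * U q * y) : Fin n → D) ⬝ᵥ U = 0 := by
    intro q
    rw [sub_dotProduct, single_dotProduct, single_dotProduct, mul_assoc (V q * U q), h2,
      mul_assoc, mul_assoc, hs (U q), sub_self]
  have hsum : (fun q => V q * s) = ∑ q ∈ Finset.univ.erase p,
      (Pi.single q (V q * s) - Pi.single p (V q * U q * y) : Fin n → D) := by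
    ext i
    rw [Finset.sum_apply]
    simp only [Pi.sub_apply]
    rw [Finset.sum_sub_distrib]
    by_cases hi : i = p
    · subst hi
      have e1 : ∑ x ∈ Finset.univ.erase i, (Pi.single x (V x * s) : Fin n → D) i = 0 :=
        Finset.sum_eq_zero fun x hx => by
          rw [Pi.single_eq_of_ne (Finset.ne_of_mem_erase hx).symm]
      have e2 : ∑ x ∈ Finset.univ.erase i, (Pi.single i (V x * U x * y) : Fin n → D) i =
          (∑ x ∈ Finset.univ.erase i, V x * U x) * y := by
        rw [Finset.sum_mul]
        exact Finset.sum_congr rfl fun x _ => by rw [Pi.single_eq_same]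
      rw [e1, e2, hU, zero_sub, neg_mul, neg_neg, mul_assoc, h1]
    · have e1 : ∑ x ∈ Finset.univ.erase p, (Pi.single x (V x * s) : Fin n → D) i = V i * s := by
        rw [Finset.sum_eq_single i]
        · rw [Pi.single_eq_same]
        · intro b _ hb
          rw [Pi.single_eq_of_ne hb.symm]
        · intro hi'
          exact absurd (Finset.mem_erase.2 ⟨hi, Finset.mem_univ _⟩) hi'
      have e2 : ∑ x ∈ Finset.univ.erase p, (Pi.single p (V x * U x * y) : Fin n → D) i = 0 :=
        Finset.sum_eq_zero fun x _ => by rw [Pi.single_eq_of_ne hi]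
      rw [e1, e2, sub_zero]
  rw [cr_congr (v' := ∑ q ∈ Finset.univ.erase p,
      (Pi.single q (V q * s) - Pi.single p (V q * U q * y) : Fin n → D)) h
      (by rw [← hsum]; exact h) rfl hsum]
  apply cr_sum_mem
  · intro q _
    exact hF q
  · intro q hq h'
    obtain ⟨k, hkq, hkp⟩ := exists_third hn q p
    refine cr_mem _ _ _ k ?_
    rw [Pi.sub_apply, Pi.single_eq_of_ne hkq, Pi.single_eq_of_ne hkp, sub_zero]

/-- A criterion for normality in terms of the maximal ideals of a central subring. -/
theorem normal_of_crit {Z D : Type} [CommRing Z] [Ring D] [Algebra Z D] {n : ℕ} (hn : 3 ≤ n)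
    (hcrit : ∀ m : Ideal Z, m.IsMaximal → ∀ (p : Fin n) (u w : Fin n → D), w ⬝ᵥ u = 1 →
      ∃ (t : Fin n → D) (y : D) (s : Z), s ∉ m ∧
      (u p + ∑ q ∈ Finset.univ.erase p, t q * u q) * y = algebraMap Z D s ∧
      y * (u p + ∑ q ∈ Finset.univ.erase p, t q * u q) = algebraMap Z D s) :
    (E n D).Normal := by
  classical
  apply normal_of
  intro g i j hij r
  let A : Ideal Z :=
    { carrier := {c | ∀ r : D, g * tv i j hij (algebraMap Z D c * r) * g⁻¹ ∈ E n D}
      add_mem' := by
        intro a b ha hb r
        have e : g * tv i j hij (algebraMap Z D (a + b) * r) * g⁻¹ =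
            (g * tv i j hij (algebraMap Z D a * r) * g⁻¹) *
            (g * tv i j hij (algebraMap Z D b * r) * g⁻¹) := by
          rw [map_add, add_mul, ← tv_mul]
          group
        rw [e]
        exact mul_mem (ha r) (hb r)
      zero_mem' := by
        intro r
        rw [map_zero, zero_mul, tv_zero]
        simp
      smul_mem' := by
        intro c x hx r
        have e : algebraMap Z D (c • x) * r = algebraMap Z D x * (algebraMap Z D c * r) := by
          rw [smul_eq_mul, ← mul_assoc, ← map_mul, mul_comm c x]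
        rw [e]
        exact hx (algebraMap Z D c * r) }
  have hA : A = ⊤ := by
    by_contra hA
    obtain ⟨m, hm, hAm⟩ := Ideal.exists_le_maximal A hA
    set G : Matrix (Fin n) (Fin n) D := (g : Matrix (Fin n) (Fin n) D) with hG
    set G' : Matrix (Fin n) (Fin n) D := ((g⁻¹ : GLn n D) : Matrix (Fin n) (Fin n) D) with hG'
    set u : Fin n → D := G *ᵥ Pi.single i 1 with hu
    set w : Fin n → D := Pi.single i 1 ᵥ* G' with hw
    have hwu : w ⬝ᵥ u = 1 := by
      rw [hw, hu, ← dotProduct_mulVec, mulVec_mulVec, hG, hG', Units.inv_mul, one_mulVec,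
        single_dotProduct, Pi.single_eq_same, mul_one]
    obtain ⟨t, y, s, hsm, h1, h2⟩ := hcrit m hm i u w hwu
    apply hsm
    apply hAm
    intro r
    -- the elementary matrix
    set t' : Fin n → D := Function.update t i 0 with ht'
    have ht'i : t' i = 0 := by rw [ht']; simp
    have he0 : t' ⬝ᵥ Pi.single i (1 : D) = 0 := by rw [dotProduct_single, ht'i, zero_mul]
    have he : cr (Pi.single i 1) t' he0 ∈ E n D := cr_single_mem i 1 t' ht'i he0
    set e : GLn n D := cr (Pi.single i 1) t' he0 with hedef
    have htu : t' ⬝ᵥ u = ∑ q ∈ Finset.univ.erase i, t q * u q := by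
      rw [dotProduct, ← Finset.sum_erase_add _ _ (Finset.mem_univ i), ht'i, zero_mul, add_zero]
      refine Finset.sum_congr rfl fun q hq => ?_
      rw [ht', Function.update_of_ne (Finset.ne_of_mem_erase hq)]
    set U : Fin n → D := (e : Matrix (Fin n) (Fin n) D) *ᵥ u with hUdef
    have hUi : U i = u i + ∑ q ∈ Finset.univ.erase i, t q * u q := by
      rw [hUdef, hedef, cr_val, add_mulVec, one_mulVec, vecMulVec_mulVec, htu]
      simp
    rw [← hUi] at h1 h2
    set v0 : Fin n → D := Pi.single j r ᵥ* G' with hv0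
    set V : Fin n → D := v0 ᵥ* ((e⁻¹ : GLn n D) : Matrix (Fin n) (Fin n) D) with hV
    have hVU : V ⬝ᵥ U = 0 := by
      apply conj_dot
      apply conj_dot
      rw [single_dotProduct, Pi.single_eq_of_ne hij.symm, mul_zero]
    have hs : ∀ x : D, algebraMap Z D s * x = x * algebraMap Z D s := fun x =>
      Algebra.commutes s x
    have hVs : (fun q => V q * algebraMap Z D s) ⬝ᵥ U = 0 := by
      have : (fun q => V q * algebraMap Z D s) ⬝ᵥ U = algebraMap Z D s * (V ⬝ᵥ U) := by
        rw [dotProduct, dotProduct, Finset.mul_sum]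
        refine Finset.sum_congr rfl fun q _ => ?_
        rw [← hs, mul_assoc]
      rw [this, hVU, mul_zero]
    have key := cr_smul_mem hn U V hVU i y (algebraMap Z D s) hs h1 h2 hVs
    -- identification
    have hz : (Pi.single j (algebraMap Z D s * r) : Fin n → D) ⬝ᵥ Pi.single i (1 : D) = 0 := by
      rw [single_dotProduct, Pi.single_eq_of_ne hij.symm, mul_zero]
    have e1 : e * (g * tv i j hij (algebraMap Z D s * r) * g⁻¹) * e⁻¹ =
        cr U (fun q => V q * algebraMap Z D s) hVs := by
      rw [tv_eq_cr i j hij _ hz, conj_cr g _ _ hz (conj_dot g _ _ hz),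
        conj_cr e _ _ (conj_dot g _ _ hz) (conj_dot e _ _ (conj_dot g _ _ hz))]
      apply cr_congr
      · rfl
      · funext q
        have e2 : (Pi.single j (algebraMap Z D s * r) : Fin n → D) =
            fun q => (Pi.single j r : Fin n → D) q * algebraMap Z D s := by
          funext q
          by_cases hq : q = j
          · subst hq
            rw [Pi.single_eq_same, Pi.single_eq_same, hs]
          · rw [Pi.single_eq_of_ne hq, Pi.single_eq_of_ne hq, zero_mul]
        have e3 : ∀ (a : Fin n → D) (M : Matrix (Fin n) (Fin n) D),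
            (fun q => a q * algebraMap Z D s) ᵥ* M = fun q => (a ᵥ* M) q * algebraMap Z D s := by
          intro a M
          funext q
          simp only [vecMul, dotProduct]
          rw [Finset.sum_mul]
          refine Finset.sum_congr rfl fun x _ => ?_
          rw [mul_assoc, hs, mul_assoc]
        rw [e2, e3, e3]
    have e4 : g * tv i j hij (algebraMap Z D s * r) * g⁻¹ =
        e⁻¹ * (e * (g * tv i j hij (algebraMap Z D s * r) * g⁻¹) * e⁻¹) * e := by group
    rw [e4, e1]
    exact mul_mem (mul_mem (inv_mem he) key) he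
  have h1 : (1 : Z) ∈ A := by rw [hA]; trivial
  have h2 := h1 r
  rwa [map_one, one_mul] at h2

/-- Normality is a local property. -/
theorem normal_of_local {D : Type} [Ring D] {n : ℕ}
    (h : ∀ F : Finset D, ∃ D' : Subring D, (∀ x ∈ F, x ∈ D') ∧ (E n D').Normal) :
    (E n D).Normal := by
  classical
  apply normal_of
  intro g i j hij r
  obtain ⟨D', hD', hN⟩ := h (insert r
    (Finset.univ.image (fun p : Fin n × Fin n => (g : Matrix (Fin n) (Fin n) D) p.1 p.2) ∪
      Finset.univ.image (fun p : Fin n × Fin n =>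
        ((g⁻¹ : GLn n D) : Matrix (Fin n) (Fin n) D) p.1 p.2)))
  have h1 : ∀ a b, (g : Matrix (Fin n) (Fin n) D) a b ∈ D' := fun a b => by
    apply hD'
    rw [Finset.mem_insert, Finset.mem_union]
    exact Or.inr (Or.inl (Finset.mem_image.2 ⟨(a, b), Finset.mem_univ _, rfl⟩))
  have h2 : ∀ a b, ((g⁻¹ : GLn n D) : Matrix (Fin n) (Fin n) D) a b ∈ D' := fun a b => by
    apply hD'
    rw [Finset.mem_insert, Finset.mem_union]
    exact Or.inr (Or.inr (Finset.mem_image.2 ⟨(a, b), Finset.mem_univ _, rfl⟩))
  have h3 : r ∈ D' := hD' _ (Finset.mem_insert_self _ _)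
  have hval : ∀ (A B : Matrix (Fin n) (Fin n) D'), A.map D'.subtype = B.map D'.subtype → A = B := by
    intro A B hAB
    ext a b
    exact congrFun (congrFun hAB a) b
  let g' : GLn n D' :=
    { val := Matrix.of fun a b => ⟨_, h1 a b⟩
      inv := Matrix.of fun a b => ⟨_, h2 a b⟩
      val_inv := by
        apply hval
        rw [Matrix.map_mul, Matrix.map_one _ (map_zero _) (map_one _)]
        exact g.mul_inv
      inv_val := by
        apply hval
        rw [Matrix.map_mul, Matrix.map_one _ (map_zero _) (map_one _)]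
        exact g.inv_mul }
  have h4 : GLmap n D'.subtype g' = g := by
    apply Units.ext
    rfl
  have h5 : g * tv i j hij r * g⁻¹ = GLmap n D'.subtype (g' * tv i j hij ⟨r, h3⟩ * g'⁻¹) := by
    rw [map_mul, map_mul, map_inv, h4, GLmap_tv]
    rfl
  rw [h5]
  exact GLmap_mem _ (hN.conj_mem _ (tv_mem _ _ _ _) _)

end Pool.Agent.TH171.EN
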