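import Pool.Agent.TH171.EN.Basic

/-!
# Further definitions: squares of ideals, doubles, Capelli expressions
-/

set_option autoImplicit false

namespace Pool.Agent.TH171.EN

open Matrix

/-- `I` is stable under multiplication by all elements of the ring, from both sides. -/
def TwoSided {T : Type} [Ring T] (I : AddSubgroup T) : Prop :=
  ∀ t : T, ∀ x ∈ I, t * x ∈ I ∧ x * t ∈ I

/-- The additive subgroup generated by the products of two elements of `I`. -/
def sq {T : Type} [Ring T] (I : AddSubgroup T) : AddSubgroup T :=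
  AddSubgroup.closure {z | ∃ x ∈ I, ∃ y ∈ I, z = x * y}

theorem sq_twoSided {T : Type} [Ring T] {I : AddSubgroup T} (hI : TwoSided I) :
    TwoSided (sq I) := by
  intro t x hx
  constructor
  · induction hx using AddSubgroup.closure_induction with
    | mem x h =>
      obtain ⟨a, ha, b, hb, rfl⟩ := h
      exact AddSubgroup.subset_closure ⟨t * a, (hI t a ha).1, b, hb, (mul_assoc _ _ _).symm⟩
    | zero => rw [mul_zero]; exact zero_mem _
    | add x y _ _ hx hy => rw [mul_add]; exact add_mem hx hy
    | neg x _ hx => rw [mul_neg]; exact neg_mem hx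
  · induction hx using AddSubgroup.closure_induction with
    | mem x h =>
      obtain ⟨a, ha, b, hb, rfl⟩ := h
      exact AddSubgroup.subset_closure ⟨a, ha, b * t, (hI t b hb).2, mul_assoc _ _ _⟩
    | zero => rw [zero_mul]; exact zero_mem _
    | add x y _ _ hx hy => rw [add_mul]; exact add_mem hx hy
    | neg x _ hx => rw [neg_mul]; exact neg_mem hx

theorem sq_le {T : Type} [Ring T] {I : AddSubgroup T} (hI : TwoSided I) : sq I ≤ I := by
  refine (AddSubgroup.closure_le _).2 ?_
  rintro _ ⟨x, hx, y, hy, rfl⟩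
  exact (hI x y hy).1

/-- The double of `T` along the ideal `K`: the pairs congruent modulo `K`. -/
def dbl {T : Type} [Ring T] (K : AddSubgroup T) (hK : TwoSided K) : Subring (T × T) where
  carrier := {p | p.1 - p.2 ∈ K}
  mul_mem' := by
    rintro ⟨a, b⟩ ⟨c, d⟩ h1 h2
    change a * c - b * d ∈ K
    have e : a * c - b * d = (a - b) * c + b * (c - d) := by
      rw [sub_mul, mul_sub]
      abel
    rw [e]
    exact add_mem (hK c _ h1).2 (hK b _ h2).1
  one_mem' := by
    change (1 : T) - 1 ∈ K
    rw [sub_self]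
    exact zero_mem _
  add_mem' := by
    rintro ⟨a, b⟩ ⟨c, d⟩ h1 h2
    change (a + c) - (b + d) ∈ K
    have e : (a + c) - (b + d) = (a - b) + (c - d) := by abel
    rw [e]
    exact add_mem h1 h2
  zero_mem' := by
    change (0 : T) - 0 ∈ K
    rw [sub_self]
    exact zero_mem _
  neg_mem' := by
    rintro ⟨a, b⟩ h
    change (-a) - (-b) ∈ K
    have e : (-a) - (-b) = -(a - b) := by abel
    rw [e]
    exact neg_mem h

theorem mem_dbl {T : Type} [Ring T] {K : AddSubgroup T} {hK : TwoSided K} {p : T × T} :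
    p ∈ dbl K hK ↔ p.1 - p.2 ∈ K := Iff.rfl

/-- `R` satisfies the multilinear identity with coefficients `c`. -/
def Ident (R : Type) [Ring R] {d : ℕ} (c : Equiv.Perm (Fin d) → ℤ) : Prop :=
  ∀ x : Fin d → R,
    ∑ σ : Equiv.Perm (Fin d), ((c σ : ℤ) : R) * (List.ofFn (fun i => x (σ i))).prod = 0

/-- The Capelli expression `∑ sgn σ • y₀ z_{σ0} y₁ z_{σ1} y₂ ⋯ z_{σ(k-1)} y_k`. -/
def cap {A : Type} [Ring A] {k : ℕ} (z : Fin k → A) (y : Fin (k + 1) → A) : A :=
  ∑ σ : Equiv.Perm (Fin k), (Equiv.Perm.sign σ : ℤ) •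
    (y 0 * (List.ofFn fun i => z (σ i) * y i.succ).prod)

end Pool.Agent.TH171.EN
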