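import Pool.Agent.TH171.EN.Defs
import Pool.Agent.H66R3.CR.Mat

/-!
# Transfer of multilinear identities
-/

set_option autoImplicit false

namespace Pool.Agent.TH171.EN

open Matrix

variable {d : ℕ} {c : Equiv.Perm (Fin d) → ℤ}

theorem Ident.of_surj {R S : Type} [Ring R] [Ring S] (f : R →+* S) (hf : Function.Surjective f)
    (h : Ident R c) : Ident S c := by
  intro x
  choose y hy using fun i => hf (x i)
  have h1 := congrArg f (h y)
  rw [map_sum, map_zero] at h1
  rw [← h1]
  refine Finset.sum_congr rfl fun σ _ => ?_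
  rw [map_mul, map_intCast, map_list_prod, List.map_ofFn]
  congr 3
  funext i
  simp [hy]

theorem Ident.of_inj {R S : Type} [Ring R] [Ring S] (f : R →+* S) (hf : Function.Injective f)
    (h : Ident S c) : Ident R c := by
  intro x
  apply hf
  rw [map_zero, ← h (fun i => f (x i)), map_sum]
  refine Finset.sum_congr rfl fun σ _ => ?_
  rw [map_mul, map_intCast, map_list_prod, List.map_ofFn]
  rfl

theorem Ident.prod {R S : Type} [Ring R] [Ring S] (hR : Ident R c) (hS : Ident S c) :
    Ident (R × S) c := by
  intro x
  apply Prod.ext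
  · have h1 := hR (fun i => (x i).1)
    rw [← RingHom.coe_fst, map_sum, map_zero, ← h1]
    refine Finset.sum_congr rfl fun σ _ => ?_
    rw [map_mul, map_intCast, map_list_prod, List.map_ofFn]
    rfl
  · have h1 := hS (fun i => (x i).2)
    rw [← RingHom.coe_snd, map_sum, map_zero, ← h1]
    refine Finset.sum_congr rfl fun σ _ => ?_
    rw [map_mul, map_intCast, map_list_prod, List.map_ofFn]
    rfl

/-- Extension of an identity by central scalars. -/
theorem ident_closure {R Q : Type} [Ring R] [Ring Q] (ρ : R →+* Q) (h : Ident R c) (K : Set Q)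
    (hK : ∀ κ ∈ K, ∀ x : Q, κ * x = x * κ) (t : Fin d → Q)
    (ht : ∀ j, t j ∈ AddSubgroup.closure {z | ∃ r : R, ∃ κ ∈ K, z = ρ r * κ}) :
    ∑ σ : Equiv.Perm (Fin d), ((c σ : ℤ) : Q) * (List.ofFn (fun i => t (σ i))).prod = 0 := by
  have h0 : Pool.Agent.H854R3.CR.MId (Set.univ : Set R) d c := by
    intro a _
    rw [← h a]
    refine Finset.sum_congr rfl fun σ _ => ?_
    rw [zsmul_eq_mul]
  have h1 := Pool.Agent.H66R3.CR.identity_extJ c Set.univ ρ h0 K
    (fun κ hκ κ' _ => hK κ hκ κ') (fun κ hκ r => hK κ hκ _) t (fun j => by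
      have := ht j
      refine AddSubgroup.closure_mono ?_ this
      rintro z ⟨r, κ, hκ, rfl⟩
      exact ⟨r, trivial, κ, hκ, rfl⟩)
  rw [← h1]
  refine Finset.sum_congr rfl fun σ _ => ?_
  rw [zsmul_eq_mul]

theorem map_cap {A B : Type} [Ring A] [Ring B] (f : A →+* B) {k : ℕ} (z : Fin k → A)
    (y : Fin (k + 1) → A) : f (cap z y) = cap (fun i => f (z i)) (fun i => f (y i)) := by
  rw [cap, cap, map_sum]
  refine Finset.sum_congr rfl fun σ _ => ?_
  rw [map_zsmul, map_mul, map_list_prod, List.map_ofFn]
  congr 4
  funext i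
  simp

/-- Multiplication on the left is absorbed by the first variable. -/
theorem mul_cap {A : Type} [Ring A] {k : ℕ} (a : A) (z : Fin k → A) (y : Fin (k + 1) → A) :
    a * cap z y = cap z (Function.update y 0 (a * y 0)) := by
  rw [cap, cap, Finset.mul_sum]
  refine Finset.sum_congr rfl fun σ _ => ?_
  rw [mul_smul_comm, Function.update_self, mul_assoc]
  congr 4

/-- Multiplication on the right is absorbed by the last variable. -/
theorem cap_mul {A : Type} [Ring A] {k : ℕ} (a : A) (z : Fin (k + 1) → A)
    (y : Fin (k + 1 + 1) → A) :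
    cap z y * a = cap z (Function.update y (Fin.last (k + 1)) (y (Fin.last (k + 1)) * a)) := by
  rw [cap, cap, Finset.sum_mul]
  refine Finset.sum_congr rfl fun σ _ => ?_
  rw [smul_mul_assoc, Function.update_of_ne (Fin.last_pos).ne, mul_assoc]
  congr 2
  rw [List.ofFn_succ', List.ofFn_succ', List.concat_eq_append, List.concat_eq_append,
    List.prod_append, List.prod_append, List.prod_singleton, List.prod_singleton, mul_assoc]
  have h1 : (Fin.last k).succ = Fin.last (k + 1) := rfl
  rw [h1, Function.update_self, mul_assoc]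
  congr 2
  congr 1
  funext i
  rw [Function.update_of_ne]
  intro h
  have h2 := congrArg Fin.val h
  simp only [Fin.val_succ, Fin.val_castSucc, Fin.val_last] at h2
  have := i.isLt
  omega

/-- Central factors can be taken out of the variables `z`. -/
theorem cap_central {A : Type} [Ring A] {k : ℕ} (κ : Fin k → A)
    (hκ : ∀ i, ∀ x : A, κ i * x = x * κ i) (z : Fin k → A) (y : Fin (k + 1) → A) :
    cap (fun i => κ i * z i) y = (List.ofFn κ).prod * cap z y := by
  rw [cap, cap, Finset.mul_sum]
  refine Finset.sum_congr rfl fun σ _ => ?_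
  have hP : ∀ l : List (Fin k), ∀ x : A, (l.map κ).prod * x = x * (l.map κ).prod := by
    intro l x
    induction l with
    | nil => simp
    | cons i l ih => rw [List.map_cons, List.prod_cons, mul_assoc, ih, ← mul_assoc, hκ, mul_assoc]
  have hsplit : ∀ l : List (Fin k), ∀ f : Fin k → A, ∀ g : Fin k → Fin k,
      (l.map fun i => κ (g i) * f i).prod = ((l.map g).map κ).prod * (l.map f).prod := by
    intro l f g
    induction l with
    | nil => simp
    | cons i l ih =>
      rw [List.map_cons, List.prod_cons, ih, List.map_cons, List.map_cons, List.prod_cons,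
        List.map_cons, List.prod_cons, mul_assoc, ← mul_assoc (f i), ← hP, mul_assoc, mul_assoc]
  rw [mul_smul_comm]
  congr 1
  have e1 : (List.ofFn fun i => κ (σ i) * z (σ i) * y i.succ) =
      (List.finRange k).map fun i => κ (σ i) * (z (σ i) * y i.succ) := by
    rw [List.ofFn_eq_map]
    simp only [mul_assoc]
  have e2 : (List.ofFn fun i => z (σ i) * y i.succ) =
      (List.finRange k).map fun i => (z (σ i) * y i.succ) := List.ofFn_eq_map
  have e3 : (((List.finRange k).map σ).map κ).prod = (List.ofFn κ).prod := by
    rw [List.ofFn_eq_map]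
    have hperm : ((List.finRange k).map σ).Perm (List.finRange k) := by
      rw [List.perm_ext_iff_of_nodup ((List.nodup_finRange k).map σ.injective)
        (List.nodup_finRange k)]
      intro a
      simp only [List.mem_map, List.mem_finRange, true_and, iff_true]
      exact ⟨σ.symm a, by simp⟩
    apply List.Perm.prod_eq' (hperm.map κ)
    rw [List.pairwise_map]
    exact List.pairwise_of_forall fun i j => hκ _ _
  rw [e1, e2, hsplit, e3, ← mul_assoc, ← mul_assoc]
  congr 1
  have := hP (List.finRange k) (y 0)
  rw [← List.ofFn_eq_map] at this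
  exact this.symm

end Pool.Agent.TH171.EN
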