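import Pool.Agent.TH171.EN.Defs
import Pool.Agent.TH350.J600
import Pool.Agent.TH541.J601
import Pool.Agent.TH897.J602
import Pool.Agent.TH480.J603
import Pool.Agent.TH480.J604
import Pool.Agent.TH480.J608
import Pool.Agent.TH171.EN.Fin6
import Pool.Agent.TH31.EN.EN7
import Pool.Agent.TH817.J607

/-!
# The nine tasks, collected
-/

set_option autoImplicit false

namespace Pool.Agent.TH171.EN

export Pool.Agent.TH350.J600 (normal_of_radical)
export Pool.Agent.TH897.J602 (excision)
export Pool.Agent.TH480.J603 (exists_isUnit_add_mul)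
export Pool.Agent.TH480.J604 (exists_central_multiple)
export Pool.Agent.TH480.J608 (cap_charpoly)
export Pool.Agent.TH171.EN6 (finite_adjoin)
export Pool.Agent.TH31.EN (exists_irrep)
export Pool.Agent.TH817.J607 (irrep_degree_le cap_ne_zero cap_mem_closure)

end Pool.Agent.TH171.EN
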