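import Pool.Agent.TH171.EN.Crit2
import Pool.Agent.TH171.EN.Tasks

/-!
# Normality for PI rings integral over a central subring
-/

set_option autoImplicit false

namespace Pool.Agent.TH171.EN

open Matrix

/-- The module-finite case. -/
theorem normal_of_finite {Z D : Type} [CommRing Z] [Ring D] [Algebra Z D] [Module.Finite Z D]
    {n : ℕ} (hn : 3 ≤ n) : (E n D).Normal :=
  normal_of_crit (Z := Z) hn fun m hm p u w h =>
    exists_central_multiple (fun _ _ _ a b x hx => exists_isUnit_add_mul a b x hx) m hm p u w h

/-- The case of PI rings integral over a central subring. -/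
theorem normal_of_integral {Z D : Type} [CommRing Z] [Ring D] [Algebra Z D] {d : ℕ}
    (c : Equiv.Perm (Fin d) → ℤ) (hc : c 1 = 1) (hid : Ident D c)
    (hint : ∀ x : D, IsIntegral Z x) {n : ℕ} (hn : 3 ≤ n) : (E n D).Normal := by
  apply normal_of_local
  intro F
  refine ⟨(Algebra.adjoin Z (F : Set D)).toSubring, fun x hx => Algebra.subset_adjoin hx, ?_⟩
  have := finite_adjoin (Z := Z) c hc hid hint F
  exact normal_of_finite (Z := Z) (D := Algebra.adjoin Z (F : Set D)) hn

end Pool.Agent.TH171.EN
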