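import Pool.Agent.TH171.EN.Struct

/-!
# Integrality of `T` over the ring of scalars
-/

set_option autoImplicit false

namespace Pool.Agent.TH171.EN

open Matrix Polynomial

section charpoly

variable {F : Type} [Field F] {m k : ℕ}

/-- The characteristic polynomial of the left multiplication, made of degree `k`. -/
noncomputable def pol (F : Type) [Field F] (m k : ℕ) (x : Matrix (Fin m) (Fin m) F) : F[X] :=
  (LinearMap.mulLeft F x).charpoly * X ^ (k - m ^ 2)

theorem pol_monic (x : Matrix (Fin m) (Fin m) F) : (pol F m k x).Monic :=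
  (LinearMap.charpoly_monic _).mul (monic_X_pow _)

theorem pol_natDegree (hm : m ^ 2 ≤ k) (x : Matrix (Fin m) (Fin m) F) :
    (pol F m k x).natDegree = k := by
  rw [pol, (LinearMap.charpoly_monic _).natDegree_mul (monic_X_pow _), natDegree_X_pow,
    LinearMap.charpoly_natDegree, Module.finrank_matrix, Module.finrank_self]
  simp only [Fintype.card_fin, mul_one]
  rw [← pow_two]
  omega

theorem aeval_pol (x : Matrix (Fin m) (Fin m) F) : aeval x (pol F m k x) = 0 := by
  have h1 : aeval x (LinearMap.mulLeft F x).charpoly = 0 := by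
    have h2 := LinearMap.aeval_self_charpoly (LinearMap.mulLeft F x)
    have h3 : LinearMap.mulLeft F x = Algebra.lmul F (Matrix (Fin m) (Fin m) F) x := rfl
    have h4 : aeval (Algebra.lmul F (Matrix (Fin m) (Fin m) F) x)
        (LinearMap.mulLeft F x).charpoly = 0 := h2
    rw [aeval_algHom_apply] at h4
    have h5 := congrArg (fun f : Module.End F (Matrix (Fin m) (Fin m) F) => f 1) h4
    simpa using h5
  rw [pol, map_mul, h1, zero_mul]

theorem aeval_pol_sum (hm : m ^ 2 ≤ k) (x : Matrix (Fin m) (Fin m) F) :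
    x ^ k + ∑ j : Fin k, algebraMap F (Matrix (Fin m) (Fin m) F) ((pol F m k x).coeff j) * x ^ (j : ℕ) = 0 := by
  have h1 := aeval_pol (k := k) x
  rw [aeval_eq_sum_range, pol_natDegree hm, Finset.sum_range_succ] at h1
  have h2 : (pol F m k x).coeff k = 1 := by
    have := (pol_monic (k := k) x).coeff_natDegree
    rwa [pol_natDegree hm] at this
  rw [h2, one_smul, add_comm] at h1
  rw [← h1]
  congr 1
  rw [Finset.sum_range fun j => (pol F m k x).coeff j • x ^ j]
  refine Finset.sum_congr rfl fun j _ => ?_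
  rw [Algebra.smul_def]

end charpoly

section setup

variable {Ω : Type} {L : Ω → Type} [∀ ω, Field (L ω)] {s : Ω → ℕ}
  (S : Subring (Amb L s)) (k : ℕ)

theorem cap_apply {k : ℕ} (z : Fin k → Amb L s) (y : Fin (k + 1) → Amb L s) (ω : Ω) :
    cap z y ω = cap (fun i => z i ω) (fun i => y i ω) :=
  map_cap (Pi.evalRingHom (fun ω => Matrix (Fin (s ω)) (Fin (s ω)) (L ω)) ω) z y

theorem coeff_mem (hinf : ∀ ω, Infinite (L ω)) (hk : ∀ ω, s ω ^ 2 ≤ k) {x : Amb L s}
    (hx : x ∈ TT S k) (j : ℕ) (hj : j ≤ k) :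
    (fun ω => (pol (L ω) (s ω) k (x ω)).coeff j) ∈ T0 S k := by
  intro a ha
  induction ha using AddSubgroup.closure_induction with
  | mem a h =>
    obtain ⟨z, y, hz, hy, rfl⟩ := h
    have h1 : sc L s (fun ω => (pol (L ω) (s ω) k (x ω)).coeff j) * cap z y =
        (-1 : ℤ) ^ (k - j) • ∑ S' ∈ Finset.powersetCard (k - j) (Finset.univ : Finset (Fin k)),
          cap (fun i => if i ∈ S' then x * z i else z i) y := by
      funext ω
      haveI := hinf ω
      have h2 := cap_charpoly (hk ω) (x ω) (fun i => z i ω) (fun i => y i ω) j hj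
      rw [Pi.mul_apply, sc_apply, cap_apply, ← Algebra.smul_def, Pi.smul_apply, Finset.sum_apply]
      refine h2.trans ?_
      congr 1
      refine Finset.sum_congr rfl fun S' _ => ?_
      rw [cap_apply]
      congr 1
      funext i
      split <;> rfl
    rw [h1]
    refine zsmul_mem (sum_mem fun S' _ => ?_) _
    refine cap_TT_mem S k _ y (fun i => ?_) hy
    split
    · exact mul_mem hx (S_le_TT S k (hz i))
    · exact S_le_TT S k (hz i)
  | zero => rw [mul_zero]; exact zero_mem _
  | add x y _ _ hx hy => rw [mul_add]; exact add_mem hx hy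
  | neg x _ hx => rw [mul_neg]; exact neg_mem hx

/-- The structure map. -/
def sT : T0 S k →+* TT S k :=
  ((sc L s).comp (T0 S k).subtype).codRestrict (TT S k) (fun τ => sc_mem_TT S k τ.2)

/-- `T` as an algebra over the ring of scalars. -/
@[reducible] def algT : Algebra (T0 S k) (TT S k) :=
  (sT S k).toAlgebra' fun τ x => Subtype.ext (sc_comm L s _ _)

/-- A monic polynomial killing an element of `T`. -/
theorem exists_poly (hinf : ∀ ω, Infinite (L ω)) (hk : ∀ ω, s ω ^ 2 ≤ k) (x : TT S k) :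
    letI := algT S k
    IsIntegral (T0 S k) x := by
  letI := algT S k
  let a : Fin k → T0 S k := fun j =>
    ⟨_, coeff_mem S k hinf hk x.2 (j : ℕ) j.2.le⟩
  refine ⟨X ^ k + ∑ j : Fin k, C (a j) * X ^ (j : ℕ), monic_X_pow_add (degree_sum_fin_lt a), ?_⟩
  have h1 : aeval x (X ^ k + ∑ j : Fin k, C (a j) * X ^ (j : ℕ)) =
      x ^ k + ∑ j : Fin k, algebraMap (T0 S k) (TT S k) (a j) * x ^ (j : ℕ) := by
    rw [map_add, map_sum, map_pow, aeval_X]
    congr 1
    refine Finset.sum_congr rfl fun j _ => ?_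
    rw [map_mul, map_pow, aeval_X, aeval_C]
  change aeval x (X ^ k + ∑ j : Fin k, C (a j) * X ^ (j : ℕ)) = 0
  rw [h1]
  apply Subtype.ext
  funext ω
  have h2 := aeval_pol_sum (hk ω) (x.1 ω)
  have h3 : ((x ^ k + ∑ j : Fin k, algebraMap (T0 S k) (TT S k) (a j) * x ^ (j : ℕ) :
      TT S k) : Amb L s) ω = (x.1 ω) ^ k + ∑ j : Fin k,
      algebraMap (L ω) (Matrix (Fin (s ω)) (Fin (s ω)) (L ω)) ((pol (L ω) (s ω) k (x.1 ω)).coeff j) *
        (x.1 ω) ^ (j : ℕ) := by
    rw [Subring.coe_add, Pi.add_apply, Subring.coe_pow, Pi.pow_apply]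
    congr 1
    rw [AddSubmonoidClass.coe_finsetSum, Finset.sum_apply]
    refine Finset.sum_congr rfl fun j _ => ?_
    rw [Subring.coe_mul, Pi.mul_apply, Subring.coe_pow, Pi.pow_apply]
    rfl
  rw [h3, h2]
  rfl

theorem ident_TT {d : ℕ} {c : Equiv.Perm (Fin d) → ℤ} (h : Ident S c) : Ident (TT S k) c := by
  intro x
  apply Subtype.ext
  have h1 := ident_closure S.subtype h ((sc L s) '' (T0 S k : Set (∀ ω, L ω)))
    (by rintro _ ⟨τ, _, rfl⟩ x; exact sc_comm L s τ x) (fun i => (x i : Amb L s))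
    (fun j => (x j).2)
  rw [AddSubmonoidClass.coe_finsetSum]
  refine Eq.trans ?_ h1
  refine Finset.sum_congr rfl fun σ _ => ?_
  rw [Subring.coe_mul]
  congr 1
  have := map_list_prod (TT S k).subtype (List.ofFn fun i => x (σ i))
  rw [List.map_ofFn] at this
  exact this

/-- The Capelli ideal inside `T`. -/
def II : AddSubgroup (TT S k) := (capI S k).comap (TT S k).subtype.toAddMonoidHom

theorem mem_II {x : TT S k} : x ∈ II S k ↔ (x : Amb L s) ∈ capI S k := Iff.rfl

theorem II_twoSided (hk : 0 < k) : TwoSided (II S k) := by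
  intro t x hx
  exact ⟨capI_TT_left S k _ t.2 _ hx, capI_TT_right S k hk _ t.2 _ hx⟩

/-- The structure map of the double. -/
def sD (K : AddSubgroup (TT S k)) (hK : TwoSided K) : T0 S k →+* dbl K hK :=
  ((sT S k).prod (sT S k)).codRestrict (dbl K hK) (fun τ => by
    rw [mem_dbl]
    change sT S k τ - sT S k τ ∈ K
    rw [sub_self]
    exact zero_mem _)

/-- The double of `T` as an algebra over the ring of scalars. -/
@[reducible] def algD (K : AddSubgroup (TT S k)) (hK : TwoSided K) :
    Algebra (T0 S k) (dbl K hK) :=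
  (sD S k K hK).toAlgebra' fun τ x => Subtype.ext (Prod.ext
    (Subtype.ext (sc_comm L s _ _)) (Subtype.ext (sc_comm L s _ _)))

theorem integral_D (hinf : ∀ ω, Infinite (L ω)) (hk : ∀ ω, s ω ^ 2 ≤ k)
    (K : AddSubgroup (TT S k)) (hK : TwoSided K) (x : dbl K hK) :
    letI := algD S k K hK
    IsIntegral (T0 S k) x := by
  letI := algD S k K hK
  letI := algT S k
  obtain ⟨p, hp, hp0⟩ := exists_poly S k hinf hk x.1.1
  obtain ⟨q, hq, hq0⟩ := exists_poly S k hinf hk x.1.2
  let f1 : dbl K hK →ₐ[T0 S k] TT S k :=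
    { toFun := fun z => z.1.1
      map_one' := rfl
      map_mul' := fun _ _ => rfl
      map_zero' := rfl
      map_add' := fun _ _ => rfl
      commutes' := fun _ => rfl }
  let f2 : dbl K hK →ₐ[T0 S k] TT S k :=
    { toFun := fun z => z.1.2
      map_one' := rfl
      map_mul' := fun _ _ => rfl
      map_zero' := rfl
      map_add' := fun _ _ => rfl
      commutes' := fun _ => rfl }
  refine ⟨p * q, hp.mul hq, ?_⟩
  change aeval x (p * q) = 0
  have h1 : f1 (aeval x (p * q)) = 0 := by
    rw [← aeval_algHom_apply, map_mul]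
    have : aeval (f1 x) p = 0 := hp0
    rw [this, zero_mul]
  have h2 : f2 (aeval x (p * q)) = 0 := by
    rw [← aeval_algHom_apply, map_mul]
    have : aeval (f2 x) q = 0 := hq0
    rw [this, mul_zero]
  exact Subtype.ext (Prod.ext h1 h2)

theorem ident_D {d : ℕ} {c : Equiv.Perm (Fin d) → ℤ} (h : Ident S c)
    (K : AddSubgroup (TT S k)) (hK : TwoSided K) : Ident (dbl K hK) c :=
  Ident.of_inj (dbl K hK).subtype Subtype.val_injective ((ident_TT S k h).prod (ident_TT S k h))

end setup

end Pool.Agent.TH171.EN
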