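import Pool.Agent.TH171.EN.IdentLemmas
import Pool.Agent.TH171.EN.Integral

/-!
# The Capelli ideal and the ring of scalars preserving it
-/

set_option autoImplicit false

namespace Pool.Agent.TH171.EN

open Matrix

/-- An absolutely irreducible representation over an algebraically closed field. -/
structure Irr (R : Type) [Ring R] where
  /-- the field -/
  L : Type
  /-- the field structure -/
  fL : Field L
  /-- algebraically closed -/
  cL : IsAlgClosed L
  /-- the degree -/
  s : ℕ
  /-- the representation -/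
  ρ : R →+* Matrix (Fin s) (Fin s) L
  /-- irreducibility -/
  span : Submodule.span L (Set.range ρ) = ⊤

/-- Pulling back along a surjection. -/
def Irr.pull {R S : Type} [Ring R] [Ring S] (f : R →+* S) (hf : Function.Surjective f)
    (V : Irr S) : Irr R :=
  letI := V.fL
  { L := V.L
    fL := V.fL
    cL := V.cL
    s := V.s
    ρ := V.ρ.comp f
    span := by
      have h1 : Set.range (V.ρ.comp f) = Set.range V.ρ := by
        rw [RingHom.coe_comp, Set.range_comp, hf.range_eq, Set.image_univ]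
      rw [h1]
      exact V.span }

section setup

variable {Ω : Type} (L : Ω → Type) [∀ ω, Field (L ω)] (s : Ω → ℕ)

/-- The product of matrix rings. -/
abbrev Amb : Type := ∀ ω, Matrix (Fin (s ω)) (Fin (s ω)) (L ω)

/-- The central scalars. -/
def sc : (∀ ω, L ω) →+* Amb L s :=
  RingHom.pi fun ω => (algebraMap (L ω) (Matrix (Fin (s ω)) (Fin (s ω)) (L ω))).comp
    (Pi.evalRingHom L ω)

theorem sc_apply (τ : ∀ ω, L ω) (ω : Ω) :
    sc L s τ ω = algebraMap (L ω) (Matrix (Fin (s ω)) (Fin (s ω)) (L ω)) (τ ω) := rfl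

theorem sc_comm (τ : ∀ ω, L ω) (x : Amb L s) : sc L s τ * x = x * sc L s τ := by
  funext ω
  exact Algebra.commutes (τ ω) (x ω)

variable {L s} (S : Subring (Amb L s)) (k : ℕ)

/-- The Capelli ideal, as an additive subgroup of the ambient ring. -/
def capI : AddSubgroup (Amb L s) :=
  AddSubgroup.closure {x | ∃ (z : Fin k → Amb L s) (y : Fin (k + 1) → Amb L s),
    (∀ i, z i ∈ S) ∧ (∀ i, y i ∈ S) ∧ x = cap z y}

theorem cap_mem_subring {A : Type} [Ring A] (S : Subring A) {k : ℕ} (z : Fin k → A)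
    (y : Fin (k + 1) → A) (hz : ∀ i, z i ∈ S) (hy : ∀ i, y i ∈ S) : cap z y ∈ S := by
  rw [cap]
  refine sum_mem fun σ _ => ?_
  refine zsmul_mem (mul_mem (hy 0) (list_prod_mem ?_)) _
  intro x hx
  rw [List.mem_ofFn] at hx
  obtain ⟨i, rfl⟩ := hx
  exact mul_mem (hz _) (hy _)

theorem capI_le : ∀ x ∈ capI S k, x ∈ S := by
  have h : capI S k ≤ S.toAddSubgroup := by
    refine (AddSubgroup.closure_le _).2 ?_
    rintro _ ⟨z, y, hz, hy, rfl⟩
    exact cap_mem_subring S z y hz hy
  exact fun x hx => h hx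

theorem capI_mul_left (a : Amb L s) (ha : a ∈ S) : ∀ x ∈ capI S k, a * x ∈ capI S k := by
  intro x hx
  induction hx using AddSubgroup.closure_induction with
  | mem x h =>
    obtain ⟨z, y, hz, hy, rfl⟩ := h
    rw [mul_cap]
    refine AddSubgroup.subset_closure ⟨z, _, hz, fun i => ?_, rfl⟩
    by_cases hi : i = 0
    · subst hi
      rw [Function.update_self]
      exact mul_mem ha (hy 0)
    · rw [Function.update_of_ne hi]
      exact hy i
  | zero => rw [mul_zero]; exact zero_mem _
  | add x y _ _ hx hy => rw [mul_add]; exact add_mem hx hy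
  | neg x _ hx => rw [mul_neg]; exact neg_mem hx

theorem capI_mul_right (hk : 0 < k) (a : Amb L s) (ha : a ∈ S) :
    ∀ x ∈ capI S k, x * a ∈ capI S k := by
  obtain ⟨k, rfl⟩ : ∃ k', k = k' + 1 := ⟨k - 1, by omega⟩
  intro x hx
  induction hx using AddSubgroup.closure_induction with
  | mem x h =>
    obtain ⟨z, y, hz, hy, rfl⟩ := h
    rw [cap_mul]
    refine AddSubgroup.subset_closure ⟨z, _, hz, fun i => ?_, rfl⟩
    by_cases hi : i = Fin.last (k + 1)
    · subst hi
      rw [Function.update_self]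
      exact mul_mem (hy _) ha
    · rw [Function.update_of_ne hi]
      exact hy i
  | zero => rw [zero_mul]; exact zero_mem _
  | add x y _ _ hx hy => rw [add_mul]; exact add_mem hx hy
  | neg x _ hx => rw [neg_mul]; exact neg_mem hx

/-- The scalars preserving the Capelli ideal. -/
def T0 : Subring (∀ ω, L ω) where
  carrier := {τ | ∀ x ∈ capI S k, sc L s τ * x ∈ capI S k}
  mul_mem' := by
    intro a b ha hb x hx
    rw [map_mul, mul_assoc]
    exact ha _ (hb _ hx)
  one_mem' := by
    intro x hx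
    rwa [map_one, one_mul]
  add_mem' := by
    intro a b ha hb x hx
    rw [map_add, add_mul]
    exact add_mem (ha _ hx) (hb _ hx)
  zero_mem' := by
    intro x _
    rw [map_zero, zero_mul]
    exact zero_mem _
  neg_mem' := by
    intro a ha x hx
    rw [map_neg, neg_mul]
    exact neg_mem (ha _ hx)

/-- The set of products of a scalar and an element of `S`. -/
def gen : Set (Amb L s) := {x | ∃ r : S, ∃ κ ∈ (sc L s) '' (T0 S k : Set (∀ ω, L ω)),
    x = S.subtype r * κ}

theorem gen_mul {x y : Amb L s} (hx : x ∈ gen S k) (hy : y ∈ gen S k) : x * y ∈ gen S k := by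
  obtain ⟨r, _, ⟨τ, hτ, rfl⟩, rfl⟩ := hx
  obtain ⟨r', _, ⟨τ', hτ', rfl⟩, rfl⟩ := hy
  refine ⟨r * r', _, ⟨τ * τ', mul_mem hτ hτ', rfl⟩, ?_⟩
  rw [map_mul, map_mul, mul_assoc, ← mul_assoc (sc L s τ), sc_comm L s τ, mul_assoc, mul_assoc]

/-- The ring `T = T₀ S`. -/
def TT : Subring (Amb L s) where
  carrier := AddSubgroup.closure (gen S k)
  mul_mem' := by
    intro a b ha hb
    exact Pool.Agent.H66R3.CR.closure_mul_mem (fun a ha b hb => gen_mul S k ha hb) ha hb
  one_mem' := AddSubgroup.subset_closure ⟨1, _, ⟨1, one_mem _, rfl⟩, by simp⟩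
  add_mem' := fun ha hb => add_mem ha hb
  zero_mem' := zero_mem _
  neg_mem' := fun ha => neg_mem ha

theorem mem_TT {x : Amb L s} : x ∈ TT S k ↔ x ∈ AddSubgroup.closure (gen S k) := Iff.rfl

theorem S_le_TT : S ≤ TT S k := by
  intro x hx
  exact AddSubgroup.subset_closure ⟨⟨x, hx⟩, _, ⟨1, one_mem _, rfl⟩, by simp⟩

theorem sc_mem_TT {τ : ∀ ω, L ω} (hτ : τ ∈ T0 S k) : sc L s τ ∈ TT S k :=
  AddSubgroup.subset_closure ⟨1, _, ⟨τ, hτ, rfl⟩, by simp⟩

theorem capI_TT_left : ∀ a ∈ TT S k, ∀ x ∈ capI S k, a * x ∈ capI S k := by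
  intro a ha x hx
  induction ha using AddSubgroup.closure_induction with
  | mem a h =>
    obtain ⟨r, _, ⟨τ, hτ, rfl⟩, rfl⟩ := h
    rw [mul_assoc]
    exact capI_mul_left S k _ r.2 _ (hτ _ hx)
  | zero => rw [zero_mul]; exact zero_mem _
  | add a b _ _ ha hb => rw [add_mul]; exact add_mem ha hb
  | neg a _ ha => rw [neg_mul]; exact neg_mem ha

theorem capI_TT_right (hk : 0 < k) : ∀ a ∈ TT S k, ∀ x ∈ capI S k, x * a ∈ capI S k := by
  intro a ha x hx
  induction ha using AddSubgroup.closure_induction with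
  | mem a h =>
    obtain ⟨r, _, ⟨τ, hτ, rfl⟩, rfl⟩ := h
    rw [← sc_comm, ← mul_assoc, ← sc_comm, mul_assoc]
    exact hτ _ (capI_mul_right S k hk _ r.2 _ hx)
  | zero => rw [mul_zero]; exact zero_mem _
  | add a b _ _ ha hb => rw [mul_add]; exact add_mem ha hb
  | neg a _ ha => rw [mul_neg]; exact neg_mem ha

/-- Capelli expressions in elements of `T` (for the alternating variables) lie in the ideal. -/
theorem cap_TT_mem (z : Fin k → Amb L s) (y : Fin (k + 1) → Amb L s) (hz : ∀ i, z i ∈ TT S k)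
    (hy : ∀ i, y i ∈ S) : cap z y ∈ capI S k := by
  refine cap_mem_closure (capI S k) (fun _ => gen S k) (fun _ => (S : Set (Amb L s))) ?_ z y hz
    (fun i => AddSubgroup.subset_closure (hy i))
  intro z y hz hy
  choose r κ hκ hz using hz
  choose τ hτ hκ using hκ
  have h1 : z = fun i => κ i * (r i : Amb L s) := by
    funext i
    rw [hz i, ← hκ i, sc_comm]
    rfl
  rw [h1, cap_central κ (fun i x => by rw [← hκ i, sc_comm])]
  have h2 : (List.ofFn κ).prod = sc L s (List.ofFn τ).prod := by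
    rw [map_list_prod, List.map_ofFn]
    congr 2
    funext i
    exact (hκ i).symm
  rw [h2]
  refine (list_prod_mem (S := T0 S k) ?_ : (List.ofFn τ).prod ∈ T0 S k) _
    (AddSubgroup.subset_closure ⟨_, y, fun i => (r i).2, hy, rfl⟩)
  intro x hx
  rw [List.mem_ofFn] at hx
  obtain ⟨i, rfl⟩ := hx
  exact hτ i

end setup

end Pool.Agent.TH171.EN
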